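import Mathlib

/-!
# MP_305fdd_al, closed surface groups, block COUNT: convolution square of a 2-transitive character

`fx X z` is the number of fixed points of `z`.  For a 2-transitive action of a finite group `G` on a
finite set with `n` elements: `(n - 1) * sum over z of fx z * fx (z⁻¹ w) = |G| (fx w + n - 2)`.
-/

set_option autoImplicit false

namespace Pool.Agent.SurfCnt

open Finset

section perm

variable {G : Type} (X : Type) [Group G] [Fintype G] [Fintype X] [MulAction G X]

open Classical in
/-- the number of the fixed points -/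
noncomputable def fx (z : G) : ℤ := ((univ.filter fun p : X => z • p = p).card : ℤ)

open Classical in
/-- the number of `z` with `z p = p'` and `z r = r'` -/
noncomputable def nn (G : Type) {X : Type} [Group G] [Fintype G] [MulAction G X]
    (p r p' r' : X) : ℤ :=
  ((univ.filter fun z : G => z • p = p' ∧ z • r = r').card : ℤ)

theorem fx_eq_sum (z : G) : fx X z = ∑ p : X, (open Classical in if z • p = p then (1 : ℤ) else 0) := by
  classical
  unfold fx
  rw [card_filter]
  push_cast
  exact sum_congr rfl fun p _ => by congr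

theorem nn_left {X : Type} [MulAction G X] (h : G) (p r p' r' : X) :
    nn G p r (h • p') (h • r') = nn G p r p' r' := by
  classical
  unfold nn
  congr 1
  refine card_bij' (fun z _ => h⁻¹ * z) (fun z _ => h * z) ?_ ?_ ?_ ?_
  · intro z hz
    simp only [mem_filter, mem_univ, true_and, mul_smul] at hz ⊢
    rw [hz.1, hz.2]
    simp
  · intro z hz
    simp only [mem_filter, mem_univ, true_and, mul_smul] at hz ⊢
    rw [hz.1, hz.2]
    simp
  · intro z _
    simp
  · intro z _
    simp

theorem nn_right {X : Type} [MulAction G X] (h : G) (p r p' r' : X) :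
    nn G (h • p) (h • r) p' r' = nn G p r p' r' := by
  classical
  unfold nn
  congr 1
  refine card_bij' (fun z _ => z * h) (fun z _ => z * h⁻¹) ?_ ?_ ?_ ?_
  · intro z hz
    simp only [mem_filter, mem_univ, true_and, mul_smul] at hz ⊢
    exact hz
  · intro z hz
    simp only [mem_filter, mem_univ, true_and, mul_smul, inv_smul_smul] at hz ⊢
    exact hz
  · intro z _
    simp
  · intro z _
    simp


theorem nn_eq {X : Type} [MulAction G X] [MulAction.IsMultiplyPretransitive G X 2]
    {p r p' r' a b a' b' : X} (h1 : p ≠ r) (h2 : p' ≠ r') (h3 : a ≠ b) (h4 : a' ≠ b') :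
    nn G p r p' r' = nn G a b a' b' := by
  have ht : ∀ {x y x' y' : X}, x ≠ y → x' ≠ y' → ∃ g : G, g • x = x' ∧ g • y = y' :=
    fun hx hy => MulAction.is_two_pretransitive_iff.1 inferInstance hx hy
  obtain ⟨g, rfl, rfl⟩ := ht h1 h3
  obtain ⟨h, rfl, rfl⟩ := ht h2 h4
  rw [nn_left, nn_right]

end perm

section perm2

variable {G : Type} (X : Type) [Group G] [Fintype G] [Fintype X] [MulAction G X]

theorem nn_sum {X : Type} [Fintype X] [MulAction G X] (p r : X) :
    ∑ p' : X, ∑ r' : X, nn G p r p' r' = Fintype.card G := by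
  classical
  unfold nn
  have h : ∀ p' r' : X, ((univ.filter fun z : G => z • p = p' ∧ z • r = r').card : ℤ) =
      ∑ z : G, if z • p = p' ∧ z • r = r' then (1 : ℤ) else 0 := by
    intro p' r'
    rw [card_filter]
    push_cast
    rfl
  simp_rw [h]
  have h2 : ∀ z : G, ∑ p' : X, ∑ r' : X, (if z • p = p' ∧ z • r = r' then (1 : ℤ) else 0) = 1 := by
    intro z
    rw [sum_eq_single (z • p), sum_eq_single (z • r)]
    · simp
    · intro b _ hb
      rw [if_neg]
      rintro ⟨_, h⟩
      exact hb h.symm
    · intro h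
      exact absurd (mem_univ _) h
    · intro b _ hb
      refine sum_eq_zero fun c _ => ?_
      rw [if_neg]
      rintro ⟨h, _⟩
      exact hb h.symm
    · intro h
      exact absurd (mem_univ _) h
  calc ∑ p' : X, ∑ r' : X, ∑ z : G, (if z • p = p' ∧ z • r = r' then (1 : ℤ) else 0)
      = ∑ p' : X, ∑ z : G, ∑ r' : X, (if z • p = p' ∧ z • r = r' then (1 : ℤ) else 0) :=
        sum_congr rfl fun p' _ => sum_comm
    _ = ∑ z : G, ∑ p' : X, ∑ r' : X, (if z • p = p' ∧ z • r = r' then (1 : ℤ) else 0) := sum_comm
    _ = ∑ _z : G, (1 : ℤ) := sum_congr rfl fun z _ => h2 z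
    _ = Fintype.card G := by simp

theorem nn_zero1 {X : Type} [MulAction G X] {p p' r' : X} (h : p' ≠ r') : nn G p p p' r' = 0 := by
  classical
  unfold nn
  rw [Nat.cast_eq_zero, card_eq_zero, filter_eq_empty_iff]
  rintro z - ⟨h1, h2⟩
  exact h (h1.symm.trans h2)

theorem nn_zero2 {X : Type} [MulAction G X] {p r p' : X} (h : p ≠ r) : nn G p r p' p' = 0 := by
  classical
  unfold nn
  rw [Nat.cast_eq_zero, card_eq_zero, filter_eq_empty_iff]
  rintro z - ⟨h1, h2⟩
  exact h (smul_left_cancel z (h1.trans h2.symm))

theorem exists_kappa {X : Type} [Fintype X] [MulAction G X]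
    [MulAction.IsMultiplyPretransitive G X 2] (hn : 2 ≤ Fintype.card X) :
    ∃ κ : ℤ, (∀ p r p' r' : X, p ≠ r → p' ≠ r' → nn G p r p' r' = κ) ∧
      (Fintype.card X : ℤ) * ((Fintype.card X : ℤ) - 1) * κ = Fintype.card G ∧
      ∀ p p' : X, nn G p p p' p' = ((Fintype.card X : ℤ) - 1) * κ := by
  classical
  obtain ⟨a, b, hab⟩ := Fintype.exists_pair_of_one_lt_card (α := X) (by omega)
  refine ⟨nn G a b a b, fun p r p' r' h h' => nn_eq h h' hab hab, ?_, ?_⟩
  · have h1 := nn_sum (G := G) a b
    have h2 : ∀ p' : X, ∑ r' : X, nn G a b p' r' =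
        ((Fintype.card X : ℤ) - 1) * nn G a b a b := by
      intro p'
      rw [← add_sum_erase univ _ (mem_univ p'), nn_zero2 hab, zero_add]
      rw [sum_congr rfl (g := fun _ => nn G a b a b)]
      · rw [sum_const, card_erase_of_mem (mem_univ _), card_univ, nsmul_eq_mul, Nat.cast_sub
          (by omega)]
        push_cast
        ring
      · intro r' hr'
        exact nn_eq hab (ne_of_mem_erase hr').symm hab hab
    rw [sum_congr rfl fun p' _ => h2 p', sum_const, card_univ, nsmul_eq_mul] at h1
    rw [← h1]
    ring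
  · intro p p'
    obtain ⟨r, hr⟩ : ∃ r : X, r ≠ p := Fintype.exists_ne_of_one_lt_card (by omega) p
    have h1 : nn G p p p' p' = ∑ s : X, nn G p r p' s := by
      unfold nn
      have h : ∀ s : X, ((univ.filter fun z : G => z • p = p' ∧ z • r = s).card : ℤ) =
          ∑ z : G, if z • p = p' ∧ z • r = s then (1 : ℤ) else 0 := by
        intro s
        rw [card_filter]
        push_cast
        rfl
      simp_rw [h]
      rw [sum_comm, card_filter]
      push_cast
      refine sum_congr rfl fun z _ => ?_
      by_cases hz : z • p = p'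
      · simp [hz]
      · simp [hz]
    rw [h1, ← add_sum_erase univ _ (mem_univ p'), nn_zero2 hr.symm, zero_add]
    rw [sum_congr rfl (g := fun _ => nn G a b a b)]
    · rw [sum_const, card_erase_of_mem (mem_univ _), card_univ, nsmul_eq_mul, Nat.cast_sub
        (by omega)]
      push_cast
      ring
    · intro r' hr'
      exact nn_eq hr.symm (ne_of_mem_erase hr').symm hab hab

/-- the convolution square of the permutation character of a 2-transitive action -/
theorem fx_conv [MulAction.IsMultiplyPretransitive G X 2] (hn : 2 ≤ Fintype.card X) (w : G) :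
    ((Fintype.card X : ℤ) - 1) * ∑ z : G, fx X z * fx X (z⁻¹ * w) =
      Fintype.card G * (fx X w + Fintype.card X - 2) := by
  classical
  obtain ⟨κ, h1, h2, h3⟩ := exists_kappa (G := G) (X := X) hn
  have h4 : ∑ z : G, fx X z * fx X (z⁻¹ * w) = ∑ r : X, ∑ p : X, nn G p r p (w • r) := by
    have h : ∀ p r : X, nn G p r p (w • r) =
        ∑ z : G, (if z • p = p then (1 : ℤ) else 0) * (if (z⁻¹ * w) • r = r then 1 else 0) := by
      intro p r
      unfold nn
      rw [card_filter]
      push_cast
      refine sum_congr rfl fun z _ => ?_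
      have : (z⁻¹ * w) • r = r ↔ z • r = w • r := by
        rw [mul_smul, inv_smul_eq_iff]
        exact eq_comm
      by_cases hz : z • p = p <;> by_cases hz' : z • r = w • r <;> simp [hz, hz', this]
    simp_rw [h]
    calc ∑ z : G, fx X z * fx X (z⁻¹ * w)
        = ∑ z : G, ∑ r : X, ∑ p : X, (if z • p = p then (1 : ℤ) else 0) *
            (if (z⁻¹ * w) • r = r then 1 else 0) := by
          refine sum_congr rfl fun z _ => ?_
          rw [fx_eq_sum, fx_eq_sum, sum_mul_sum, sum_comm]
      _ = ∑ r : X, ∑ z : G, ∑ p : X, (if z • p = p then (1 : ℤ) else 0) *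
            (if (z⁻¹ * w) • r = r then 1 else 0) := sum_comm
      _ = _ := sum_congr rfl fun r _ => sum_comm
  have h5 : ∀ r : X, ∑ p : X, nn G p r p (w • r) =
      κ * (Fintype.card X - 2) + (Fintype.card X * κ) * (if w • r = r then 1 else 0) := by
    intro r
    rw [← add_sum_erase univ _ (mem_univ r)]
    by_cases hr : w • r = r
    · rw [hr, h3, if_pos rfl]
      rw [sum_congr rfl (g := fun _ => κ)]
      · rw [sum_const, card_erase_of_mem (mem_univ _), card_univ, nsmul_eq_mul, Nat.cast_sub
          (by omega)]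
        push_cast
        ring
      · intro p hp
        exact h1 _ _ _ _ (ne_of_mem_erase hp) (ne_of_mem_erase hp)
    · rw [if_neg hr, nn_zero1 (Ne.symm hr), zero_add, mul_zero, add_zero]
      rw [← add_sum_erase (univ.erase r) _ (mem_erase.2 ⟨hr, mem_univ _⟩), nn_zero2 hr, zero_add]
      rw [sum_congr rfl (g := fun _ => κ)]
      · rw [sum_const, card_erase_of_mem (mem_erase.2 ⟨hr, mem_univ _⟩),
          card_erase_of_mem (mem_univ _), card_univ, nsmul_eq_mul, Nat.cast_sub (by omega),
          Nat.cast_sub (by omega)]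
        push_cast
        ring
      · intro p hp
        have hp1 := ne_of_mem_erase hp
        have hp2 := ne_of_mem_erase (mem_of_mem_erase hp)
        exact h1 _ _ _ _ hp2 hp1
  rw [h4, sum_congr rfl fun r _ => h5 r, sum_add_distrib, sum_const, card_univ, nsmul_eq_mul,
    ← mul_sum]
  have h6 : ∑ r : X, (if w • r = r then (1 : ℤ) else 0) = fx X w := by
    rw [fx_eq_sum]
  rw [h6, ← h2]
  ring

/-- Burnside's lemma for a transitive action (`2`-transitive, `n ≥ 2`) -/
theorem fx_sum [MulAction.IsMultiplyPretransitive G X 2] (hn : 2 ≤ Fintype.card X) :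
    ∑ z : G, fx X z = Fintype.card G := by
  classical
  obtain ⟨κ, h1, h2, h3⟩ := exists_kappa (G := G) (X := X) hn
  simp_rw [fx_eq_sum]
  rw [sum_comm]
  have h4 : ∀ p : X, ∑ z : G, (if z • p = p then (1 : ℤ) else 0) =
      ((Fintype.card X : ℤ) - 1) * κ := by
    intro p
    rw [← h3 p p]
    unfold nn
    rw [card_filter]
    push_cast
    refine sum_congr rfl fun z _ => ?_
    simp
  have h5 : ∑ p : X, ∑ z : G, (open Classical in if z • p = p then (1 : ℤ) else 0) =
      ∑ p : X, ((Fintype.card X : ℤ) - 1) * κ := by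
    refine sum_congr rfl fun p _ => ?_
    rw [← h4 p]
  rw [h5, sum_const, card_univ, nsmul_eq_mul, ← h2]
  ring

end perm2

end Pool.Agent.SurfCnt
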