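import Mathlib
import Pool.Agent.Lib.MP_305fdd_al.Surf.CntA

/-!
# MP_305fdd_al, closed surface groups, block COUNT: conjugation in `SL(2, F)`, characteristic `2`

`F` finite of characteristic `2`; `x, x' ≠ 1` with the same trace: the number of `y` with
`y x = x' y` is the number of the lines which are not fixed by `x'`.
-/

set_option autoImplicit false

namespace Pool.Agent.SurfCnt

open Finset LinearAlgebra.Projectivization

/-- the group -/
abbrev SL (F : Type) [Field F] := Matrix.SpecialLinearGroup (Fin 2) F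

/-- the projective line -/
abbrev PL (F : Type) [Field F] := Projectivization F (Fin 2 → F)

section lines

variable {F : Type} [Field F] [CharP F 2]

/-- the determinant of two vectors (characteristic `2`) -/
def dt (v w : Fin 2 → F) : F := v 0 * w 1 + v 1 * w 0

theorem dt_eq_zero_iff {v w : Fin 2 → F} (hv : v ≠ 0) (hw : w ≠ 0) :
    dt v w = 0 ↔ Projectivization.mk F v hv = Projectivization.mk F w hw := by
  have h2 : ∀ a b : F, a + b = 0 ↔ a = b := fun a b => CharTwo.add_eq_zero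
  rw [Projectivization.mk_eq_mk_iff', dt, h2]
  constructor
  · intro h
    by_cases hw0 : w 0 = 0
    · have hw1 : w 1 ≠ 0 := by
        intro h1
        apply hw
        ext i
        fin_cases i
        · exact hw0
        · exact h1
      have hv0 : v 0 = 0 := by
        rw [hw0, mul_zero] at h
        exact (mul_eq_zero.1 h).resolve_right hw1
      refine ⟨v 1 / w 1, ?_⟩
      ext i
      fin_cases i
      · simp [hw0, hv0]
      · simp [hw1]
    · refine ⟨v 0 / w 0, ?_⟩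
      ext i
      fin_cases i
      · simp [hw0]
      · simp only [Fin.mk_one, Pi.smul_apply, smul_eq_mul]
        rw [div_mul_eq_mul_div, h, mul_div_assoc, div_self hw0, mul_one]
  · rintro ⟨a, rfl⟩
    simp only [Pi.smul_apply, smul_eq_mul]
    ring

theorem smul_apply0 (g : SL F) (v : Fin 2 → F) : (g • v) 0 = g.1 0 0 * v 0 + g.1 0 1 * v 1 := by
  rw [Matrix.SpecialLinearGroup.smul_def]
  simp [Matrix.mulVec, dotProduct, Fin.sum_univ_two]

theorem smul_apply1 (g : SL F) (v : Fin 2 → F) : (g • v) 1 = g.1 1 0 * v 0 + g.1 1 1 * v 1 := by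
  rw [Matrix.SpecialLinearGroup.smul_def]
  simp [Matrix.mulVec, dotProduct, Fin.sum_univ_two]

theorem det_eq (g : SL F) : g.1 0 0 * g.1 1 1 + g.1 0 1 * g.1 1 0 = 1 := by
  have h := g.2
  rw [Matrix.det_fin_two, CharTwo.sub_eq_add] at h
  exact h

theorem tr_eq (g : SL F) : g.1.trace = g.1 0 0 + g.1 1 1 := Matrix.trace_fin_two _

theorem fix_iff (g : SL F) {v : Fin 2 → F} (hv : v ≠ 0) :
    g • Projectivization.mk F v hv = Projectivization.mk F v hv ↔ dt v (g • v) = 0 := by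
  rw [Projectivization.smul_mk, eq_comm, ← dt_eq_zero_iff]

theorem smul_eq_iff (g h : SL F) {v : Fin 2 → F} (hv : v ≠ 0) :
    g • Projectivization.mk F v hv = h • Projectivization.mk F v hv ↔
      ∃ c : F, c ≠ 0 ∧ g • v = c • (h • v) := by
  rw [Projectivization.smul_mk, Projectivization.smul_mk, Projectivization.mk_eq_mk_iff]
  constructor
  · rintro ⟨a, ha⟩
    exact ⟨a, a.ne_zero, ha.symm⟩
  · rintro ⟨c, hc, h⟩
    exact ⟨Units.mk0 c hc, h.symm⟩

/-- a determinant one matrix which fixes a vector up to `c`, commutes with `x` and moves the line of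
the vector by `x` is the identity -/
theorem eq_one_of_comm {x u : SL F} (hu : u * x = x * u) {v : Fin 2 → F}
    (hv : dt v (x • v) ≠ 0) {c : F} (hc : u • v = c • v) : u = 1 := by
  have h1 : u • (x • v) = c • (x • v) := by
    rw [← mul_smul, hu, mul_smul, hc, smul_comm]
  have e00 := congrFun hc 0
  have e01 := congrFun hc 1
  have e10 := congrFun h1 0
  have e11 := congrFun h1 1
  rw [smul_apply0, Pi.smul_apply, smul_eq_mul] at e00 e10
  rw [smul_apply1, Pi.smul_apply, smul_eq_mul] at e01 e11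
  generalize hw : x • v = w at *
  unfold dt at hv
  have h2 : (2 : F) = 0 := CharTwo.two_eq_zero
  -- `u = c`
  have a00 : u.1 0 0 = c := by
    have : (u.1 0 0 + c) * (v 0 * w 1 + v 1 * w 0) = 0 := by
      linear_combination w 1 * e00 + v 1 * e10 + (-(u.1 0 1 * v 1 * w 1) + c * v 0 * w 1
        + c * v 1 * w 0) * h2
    exact CharTwo.add_eq_zero.1 ((mul_eq_zero.1 this).resolve_right hv)
  have a01 : u.1 0 1 = 0 := by
    have : u.1 0 1 * (v 0 * w 1 + v 1 * w 0) = 0 := by
      linear_combination w 0 * e00 + v 0 * e10 + (-(u.1 0 0 * v 0 * w 0) + c * v 0 * w 0) * h2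
    exact (mul_eq_zero.1 this).resolve_right hv
  have a10 : u.1 1 0 = 0 := by
    have : u.1 1 0 * (v 0 * w 1 + v 1 * w 0) = 0 := by
      linear_combination w 1 * e01 + v 1 * e11 + (-(u.1 1 1 * v 1 * w 1) + c * v 1 * w 1) * h2
    exact (mul_eq_zero.1 this).resolve_right hv
  have a11 : u.1 1 1 = c := by
    have : (u.1 1 1 + c) * (v 0 * w 1 + v 1 * w 0) = 0 := by
      linear_combination w 0 * e01 + v 0 * e11 + (-(u.1 1 0 * v 0 * w 0) + c * v 1 * w 0
        + c * v 0 * w 1) * h2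
    exact CharTwo.add_eq_zero.1 ((mul_eq_zero.1 this).resolve_right hv)
  have hd := det_eq u
  rw [a00, a01, a10, a11, mul_zero, add_zero] at hd
  have hc1 : c = 1 := by
    have : (c + 1) * (c + 1) = 0 := by linear_combination hd + (c + 1) * h2
    exact CharTwo.add_eq_zero.1 (mul_self_eq_zero.1 this)
  ext i j
  fin_cases i <;> fin_cases j <;> simp [a00, a01, a10, a11, hc1]

end lines

section ext

variable {F : Type} [Field F] [CharP F 2]

theorem mat_ext {a b : SL F} {v w : Fin 2 → F} (hD : dt v w ≠ 0) (h1 : a • v = b • v)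
    (h2 : a • w = b • w) : a = b := by
  have e00 := congrFun h1 0
  have e01 := congrFun h1 1
  have e10 := congrFun h2 0
  have e11 := congrFun h2 1
  rw [smul_apply0, smul_apply0] at e00 e10
  rw [smul_apply1, smul_apply1] at e01 e11
  unfold dt at hD
  have h2 : (2 : F) = 0 := CharTwo.two_eq_zero
  have a00 : a.1 0 0 = b.1 0 0 := by
    have : (a.1 0 0 + b.1 0 0) * (v 0 * w 1 + v 1 * w 0) = 0 := by
      linear_combination w 1 * e00 + v 1 * e10 + (-(a.1 0 1 * v 1 * w 1) + b.1 0 1 * v 1 * w 1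
        + b.1 0 0 * v 0 * w 1 + b.1 0 0 * v 1 * w 0) * h2
    exact CharTwo.add_eq_zero.1 ((mul_eq_zero.1 this).resolve_right hD)
  have a01 : a.1 0 1 = b.1 0 1 := by
    have : (a.1 0 1 + b.1 0 1) * (v 0 * w 1 + v 1 * w 0) = 0 := by
      linear_combination w 0 * e00 + v 0 * e10 + (-(a.1 0 0 * v 0 * w 0) + b.1 0 0 * v 0 * w 0
        + b.1 0 1 * v 0 * w 1 + b.1 0 1 * v 1 * w 0) * h2
    exact CharTwo.add_eq_zero.1 ((mul_eq_zero.1 this).resolve_right hD)
  have a10 : a.1 1 0 = b.1 1 0 := by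
    have : (a.1 1 0 + b.1 1 0) * (v 0 * w 1 + v 1 * w 0) = 0 := by
      linear_combination w 1 * e01 + v 1 * e11 + (-(a.1 1 1 * v 1 * w 1) + b.1 1 1 * v 1 * w 1
        + b.1 1 0 * v 0 * w 1 + b.1 1 0 * v 1 * w 0) * h2
    exact CharTwo.add_eq_zero.1 ((mul_eq_zero.1 this).resolve_right hD)
  have a11 : a.1 1 1 = b.1 1 1 := by
    have : (a.1 1 1 + b.1 1 1) * (v 0 * w 1 + v 1 * w 0) = 0 := by
      linear_combination w 0 * e01 + v 0 * e11 + (-(a.1 1 0 * v 0 * w 0) + b.1 1 0 * v 0 * w 0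
        + b.1 1 1 * v 0 * w 1 + b.1 1 1 * v 1 * w 0) * h2
    exact CharTwo.add_eq_zero.1 ((mul_eq_zero.1 this).resolve_right hD)
  ext i j
  fin_cases i <;> fin_cases j <;> simp [a00, a01, a10, a11]

theorem cayley (x : SL F) (v : Fin 2 → F) : x • (x • v) = x.1.trace • (x • v) + v := by
  have hd := det_eq x
  have h2 : (2 : F) = 0 := CharTwo.two_eq_zero
  rw [tr_eq]
  ext i
  fin_cases i
  · simp only [Fin.zero_eta, Pi.add_apply, Pi.smul_apply, smul_eq_mul, smul_apply0, smul_apply1]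
    linear_combination (- v 0) * hd + (x.1 0 1 * x.1 1 0 * v 0 - v 0) * h2
  · simp only [Fin.mk_one, Pi.add_apply, Pi.smul_apply, smul_eq_mul, smul_apply0, smul_apply1]
    linear_combination (- v 1) * hd + (x.1 0 1 * x.1 1 0 * v 1 - v 1) * h2

end ext

section exist

variable {F : Type} [Field F] [CharP F 2] [Finite F]

theorem exists_sq (a : F) : ∃ c : F, c * c = a := by
  have : Fintype F := Fintype.ofFinite F
  obtain ⟨c, hc⟩ := (FiniteField.isSquare_of_char_two (F := F) (by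
    rw [ringChar.eq_iff]; infer_instance) a)
  exact ⟨c, hc.symm⟩

theorem exists_conj {x x' : SL F} (ht : x.1.trace = x'.1.trace) {v v' : Fin 2 → F}
    (hv : dt v (x • v) ≠ 0) (hv' : dt v' (x' • v') ≠ 0) :
    ∃ (y : SL F) (c : F), c ≠ 0 ∧ y * x = x' * y ∧ y • v = c • v' := by
  obtain ⟨c, hc⟩ := exists_sq (dt v (x • v) / dt v' (x' • v'))
  have hc0 : c ≠ 0 := by
    rintro rfl
    rw [mul_zero] at hc
    exact div_ne_zero hv hv' hc.symm
  have hcx := cayley x v
  have hcx' := cayley x' v'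
  generalize hw : x • v = w at *
  generalize hw' : x' • v' = w' at *
  have h2 : (2 : F) = 0 := CharTwo.two_eq_zero
  have hD : v 0 * w 1 + v 1 * w 0 ≠ 0 := hv
  have hD' : v' 0 * w' 1 + v' 1 * w' 0 ≠ 0 := hv'
  have hc' : c * c * (v' 0 * w' 1 + v' 1 * w' 0) = v 0 * w 1 + v 1 * w 0 := by
    rw [hc]
    exact div_mul_cancel₀ _ hv'
  -- `y = c * [v' | w'] * [v | w]⁻¹`
  let D := v 0 * w 1 + v 1 * w 0
  let y : SL F := ⟨!![c * (v' 0 * w 1 + w' 0 * v 1) / D, c * (v' 0 * w 0 + w' 0 * v 0) / D;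
       c * (v' 1 * w 1 + w' 1 * v 1) / D, c * (v' 1 * w 0 + w' 1 * v 0) / D], by
    rw [Matrix.det_fin_two_of, CharTwo.sub_eq_add]
    have hDD : D ≠ 0 := hD
    have e : c * (v' 0 * w 1 + w' 0 * v 1) / D * (c * (v' 1 * w 0 + w' 1 * v 0) / D) +
        c * (v' 0 * w 0 + w' 0 * v 0) / D * (c * (v' 1 * w 1 + w' 1 * v 1) / D) =
        c * c * ((v' 0 * w 1 + w' 0 * v 1) * (v' 1 * w 0 + w' 1 * v 0) +
          (v' 0 * w 0 + w' 0 * v 0) * (v' 1 * w 1 + w' 1 * v 1)) / (D * D) := by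
      field_simp
    rw [e, div_eq_one_iff_eq (mul_ne_zero hDD hDD)]
    change _ = (v 0 * w 1 + v 1 * w 0) * (v 0 * w 1 + v 1 * w 0)
    linear_combination (v 0 * w 1 + v 1 * w 0) * hc' +
      c * c * (v' 0 * v' 1 * w 0 * w 1 + w' 0 * w' 1 * v 0 * v 1) * h2⟩
  have hDD : D ≠ 0 := hD
  have hyv : y • v = c • v' := by
    ext i
    fin_cases i
    · rw [Fin.zero_eta, smul_apply0, Pi.smul_apply, smul_eq_mul]
      change c * (v' 0 * w 1 + w' 0 * v 1) / D * v 0 + c * (v' 0 * w 0 + w' 0 * v 0) / D * v 1 = _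
      have e : c * (v' 0 * w 1 + w' 0 * v 1) / D * v 0 + c * (v' 0 * w 0 + w' 0 * v 0) / D * v 1 =
        c * ((v' 0 * w 1 + w' 0 * v 1) * v 0 + (v' 0 * w 0 + w' 0 * v 0) * v 1) / D := by
        field_simp
      rw [e, div_eq_iff hDD]
      change _ = c * v' 0 * (v 0 * w 1 + v 1 * w 0)
      linear_combination c * (w' 0 * v 0 * v 1) * h2
    · rw [Fin.mk_one, smul_apply1, Pi.smul_apply, smul_eq_mul]
      change c * (v' 1 * w 1 + w' 1 * v 1) / D * v 0 + c * (v' 1 * w 0 + w' 1 * v 0) / D * v 1 = _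
      have e : c * (v' 1 * w 1 + w' 1 * v 1) / D * v 0 + c * (v' 1 * w 0 + w' 1 * v 0) / D * v 1 =
        c * ((v' 1 * w 1 + w' 1 * v 1) * v 0 + (v' 1 * w 0 + w' 1 * v 0) * v 1) / D := by
        field_simp
      rw [e, div_eq_iff hDD]
      change _ = c * v' 1 * (v 0 * w 1 + v 1 * w 0)
      linear_combination c * (w' 1 * v 0 * v 1) * h2
  have hyw : y • w = c • w' := by
    ext i
    fin_cases i
    · rw [Fin.zero_eta, smul_apply0, Pi.smul_apply, smul_eq_mul]
      change c * (v' 0 * w 1 + w' 0 * v 1) / D * w 0 + c * (v' 0 * w 0 + w' 0 * v 0) / D * w 1 = _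
      have e : c * (v' 0 * w 1 + w' 0 * v 1) / D * w 0 + c * (v' 0 * w 0 + w' 0 * v 0) / D * w 1 =
        c * ((v' 0 * w 1 + w' 0 * v 1) * w 0 + (v' 0 * w 0 + w' 0 * v 0) * w 1) / D := by
        field_simp
      rw [e, div_eq_iff hDD]
      change _ = c * w' 0 * (v 0 * w 1 + v 1 * w 0)
      linear_combination c * (v' 0 * w 0 * w 1) * h2
    · rw [Fin.mk_one, smul_apply1, Pi.smul_apply, smul_eq_mul]
      change c * (v' 1 * w 1 + w' 1 * v 1) / D * w 0 + c * (v' 1 * w 0 + w' 1 * v 0) / D * w 1 = _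
      have e : c * (v' 1 * w 1 + w' 1 * v 1) / D * w 0 + c * (v' 1 * w 0 + w' 1 * v 0) / D * w 1 =
        c * ((v' 1 * w 1 + w' 1 * v 1) * w 0 + (v' 1 * w 0 + w' 1 * v 0) * w 1) / D := by
        field_simp
      rw [e, div_eq_iff hDD]
      change _ = c * w' 1 * (v 0 * w 1 + v 1 * w 0)
      linear_combination c * (v' 1 * w 0 * w 1) * h2
  refine ⟨y, c, hc0, ?_, hyv⟩
  apply mat_ext hv
  · rw [mul_smul, mul_smul, hw, hyw, hyv, smul_comm, hw']
  · rw [mul_smul, mul_smul, hcx, hyw, smul_comm, hcx', smul_add, smul_add, hyv, smul_comm, hyw,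
      ← ht, smul_comm]

end exist

end Pool.Agent.SurfCnt
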