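import Mathlib
import Pool.Agent.Lib.MP_305fdd_al.Surf.CntB

/-!
# MP_305fdd_al, closed surface groups, block COUNT: the number of `(x, y)` with `[x, y] = z`, I
-/

set_option autoImplicit false

namespace Pool.Agent.SurfCnt

open Finset LinearAlgebra.Projectivization

open scoped commutatorElement

variable {F : Type} [Field F] [CharP F 2] [Fintype F]

noncomputable instance instFintypePL : Fintype (PL F) := Fintype.ofFinite _

noncomputable instance instFintypeSL : Fintype (SL F) := Fintype.ofFinite _

/-- the number of the lines which are not fixed -/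
noncomputable def nf (z : SL F) : ℤ :=
  open Classical in ((univ.filter fun p : PL F => z • p ≠ p).card : ℤ)

/-- the number of `y` with `y x = x' y` -/
noncomputable def cj (x x' : SL F) : ℤ :=
  open Classical in ((univ.filter fun y : SL F => y * x = x' * y).card : ℤ)

theorem card_PL : (Fintype.card (PL F) : ℤ) = Fintype.card F + 1 := by
  have h := Projectivization.card_of_finrank_two F (Fin 2 → F) (by simp)
  rw [Nat.card_eq_fintype_card, Nat.card_eq_fintype_card] at h
  rw [h]
  push_cast
  ring

theorem nf_eq (z : SL F) : nf z = Fintype.card F + 1 - fx (PL F) z := by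
  classical
  rw [← card_PL]
  unfold nf fx
  have h := card_filter_add_card_filter_not (s := (univ : Finset (PL F))) (fun p => z • p = p)
  rw [card_univ] at h
  have h' : (Fintype.card (PL F) : ℤ) =
      (univ.filter fun p : PL F => z • p = p).card + (univ.filter fun p : PL F => z • p ≠ p).card := by
    exact_mod_cast h.symm
  rw [h']
  ring_nf

theorem nf_one : nf (1 : SL F) = 0 := by
  classical
  unfold nf
  rw [Nat.cast_eq_zero, card_eq_zero, filter_eq_empty_iff]
  intro p _
  simp

theorem nf_inv (z : SL F) : nf z⁻¹ = nf z := by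
  classical
  unfold nf
  congr 2
  refine filter_congr fun p _ => ?_
  rw [ne_eq, ne_eq, inv_smul_eq_iff, eq_comm (a := p)]

theorem exists_moved {x : SL F} (hx : x ≠ 1) : ∃ v : Fin 2 → F, v ≠ 0 ∧ dt v (x • v) ≠ 0 := by
  by_contra h
  push Not at h
  have h1 := h ![1, 0] (by simp)
  have h2 := h ![0, 1] (by simp)
  have h3 := h ![1, 1] (by simp)
  have h4 : (2 : F) = 0 := CharTwo.two_eq_zero
  simp only [dt, smul_apply0, smul_apply1, Matrix.cons_val_zero, Matrix.cons_val_one, mul_one,
    mul_zero, one_mul, zero_mul, add_zero, zero_add] at h1 h2 h3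
  have hd := det_eq x
  have h5 : x.1 0 0 = x.1 1 1 := by
    rw [h1, h2, zero_add, add_zero] at h3
    exact (CharTwo.add_eq_zero.1 h3).symm
  have h6 : x.1 1 1 = 1 := by
    rw [h5, h2, zero_mul, add_zero] at hd
    have : (x.1 1 1 + 1) * (x.1 1 1 + 1) = 0 := by linear_combination hd + (x.1 1 1 + 1) * h4
    exact CharTwo.add_eq_zero.1 (mul_self_eq_zero.1 this)
  apply hx
  ext i j
  fin_cases i <;> fin_cases j <;> simp [h1, h2, h5, h6]

theorem cj_eq_nf {x x' : SL F} (hx : x ≠ 1) (ht : x.1.trace = x'.1.trace) : cj x x' = nf x' := by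
  classical
  obtain ⟨v, hv0, hv⟩ := exists_moved hx
  unfold cj nf
  congr 1
  refine card_bij (fun y _ => y • Projectivization.mk F v hv0) ?_ ?_ ?_
  · intro y hy
    simp only [mem_filter, mem_univ, true_and] at hy ⊢
    intro h
    rw [← mul_smul, ← hy, mul_smul, smul_left_cancel_iff, fix_iff] at h
    exact hv h
  · intro y1 hy1 y2 hy2 h
    simp only [mem_filter, mem_univ, true_and] at hy1 hy2
    rw [smul_eq_iff] at h
    obtain ⟨c, hc0, hc⟩ := h
    have hu : (y2⁻¹ * y1) * x = x * (y2⁻¹ * y1) := by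
      rw [mul_assoc, hy1, ← mul_assoc, ← mul_assoc]
      congr 1
      rw [inv_mul_eq_iff_eq_mul, ← mul_assoc, hy2, mul_assoc, mul_inv_cancel, mul_one]
    have h1 := eq_one_of_comm hu hv (c := c) (by rw [mul_smul, hc, smul_comm, inv_smul_smul])
    exact (inv_mul_eq_one.1 h1).symm
  · intro p hp
    simp only [mem_filter, mem_univ, true_and] at hp
    induction p using Projectivization.ind with
    | h v' hv0' =>
      rw [ne_eq, fix_iff] at hp
      obtain ⟨y, c, hc0, h1, h2⟩ := exists_conj ht hv hp
      refine ⟨y, by simpa using h1, ?_⟩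
      rw [Projectivization.smul_mk, Projectivization.mk_eq_mk_iff']
      exact ⟨c, h2.symm⟩

theorem trace_of_conj {x x' y : SL F} (h : y * x = x' * y) : x.1.trace = x'.1.trace := by
  have h1 : x' = y * x * y⁻¹ := by rw [h, mul_inv_cancel_right]
  have h2 : x'.1 = y.1 * x.1 * y⁻¹.1 := by rw [h1]; rfl
  rw [h2, Matrix.trace_mul_comm, ← mul_assoc]
  have h3 : y⁻¹.1 * y.1 = 1 := by
    have : (y⁻¹ * y).1 = 1 := by rw [inv_mul_cancel]; rfl
    exact this
  rw [h3, one_mul]

theorem cj_eq_zero {x x' : SL F} (ht : x.1.trace ≠ x'.1.trace) : cj x x' = 0 := by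
  classical
  unfold cj
  rw [Nat.cast_eq_zero, card_eq_zero, filter_eq_empty_iff]
  intro y _ h
  exact ht (trace_of_conj h)

theorem cj_one_left {x' : SL F} (h : x' ≠ 1) : cj 1 x' = 0 := by
  classical
  unfold cj
  rw [Nat.cast_eq_zero, card_eq_zero, filter_eq_empty_iff]
  intro y _ h'
  rw [mul_one] at h'
  exact h (mul_eq_right.1 h'.symm)

theorem cj_comm (x x' : SL F) : cj x x' = cj x' x := by
  classical
  unfold cj
  congr 1
  refine card_bij' (fun y _ => y⁻¹) (fun y _ => y⁻¹) ?_ ?_ ?_ ?_
  · intro y hy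
    simp only [mem_filter, mem_univ, true_and] at hy ⊢
    rw [inv_mul_eq_iff_eq_mul, ← mul_assoc, hy, mul_inv_cancel_right]
  · intro y hy
    simp only [mem_filter, mem_univ, true_and] at hy ⊢
    rw [inv_mul_eq_iff_eq_mul, ← mul_assoc, hy, mul_inv_cancel_right]
  · intro y _
    simp
  · intro y _
    simp

/-- `x, x'` with the same trace, `x' ≠ 1` -/
theorem cj_eq_nf' {x x' : SL F} (hx : x' ≠ 1) (ht : x.1.trace = x'.1.trace) : cj x x' = nf x := by
  rw [cj_comm, cj_eq_nf hx ht.symm]

/-- the number of `(x, y)` with `[x, y] = z` -/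
noncomputable def cm (z : SL F) : ℤ :=
  open Classical in ((univ.filter fun p : SL F × SL F => ⁅p.1, p.2⁆ = z).card : ℤ)

theorem cm_eq (z : SL F) : cm z = ∑ x : SL F, cj x (x * z) := by
  classical
  unfold cm cj
  rw [← Equiv.sum_comp (Equiv.inv (SL F))]
  have h : (univ.filter fun p : SL F × SL F => ⁅p.1, p.2⁆ = z).card =
      ∑ x : SL F, (univ.filter fun y : SL F => ⁅x, y⁆ = z).card := by
    rw [card_filter, ← univ_product_univ, sum_product]
    exact sum_congr rfl fun x _ => by rw [card_filter]
  rw [h]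
  push_cast
  refine sum_congr rfl fun x _ => ?_
  congr 2
  refine filter_congr fun y _ => ?_
  rw [Equiv.inv_apply, commutatorElement_def]
  constructor
  · intro h
    rw [← h]
    group
  · intro h
    have : y * x⁻¹ * y⁻¹ = x⁻¹ * z := by rw [h, mul_inv_cancel_right]
    rw [mul_assoc, mul_assoc, ← mul_assoc y, this, mul_inv_cancel_left]

end Pool.Agent.SurfCnt
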