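import Mathlib
import Pool.Agent.Lib.MP_305fdd_al.Surf.CntC

/-!
# MP_305fdd_al, closed surface groups, block COUNT: the number of `(x, y)` with `[x, y] = z`, II

`Wc p z`: the number of the `x` with `tr x = tr (x z)` which move the line `p`.
-/

set_option autoImplicit false

namespace Pool.Agent.SurfCnt

open Finset LinearAlgebra.Projectivization

variable {F : Type} [Field F] [CharP F 2] [Fintype F]

/-- the number of the `x` with `tr x = tr (x z)` which move the line `p` -/
noncomputable def Wc (p : PL F) (z : SL F) : ℤ :=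
  open Classical in
  ((univ.filter fun x : SL F => x.1.trace = (x * z).1.trace ∧ x • p ≠ p).card : ℤ)

theorem trace_one : (1 : SL F).1.trace = 0 := by
  rw [tr_eq]
  simp [CharTwo.add_self_eq_zero]

theorem trace_inv (z : SL F) : z⁻¹.1.trace = z.1.trace := by
  rw [Matrix.SpecialLinearGroup.SL2_inv_expl]
  rw [tr_eq]
  simp [Matrix.trace_fin_two, add_comm]

theorem cm_sum {z : SL F} (hz : z ≠ 1) :
    cm z = ∑ p : PL F, Wc p z - (open Classical in if z.1.trace = 0 then nf z else 0) := by
  classical
  have h1 : ∀ x : SL F, cj x (x * z) = (if x.1.trace = (x * z).1.trace then nf x else 0) -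
      (if x = z⁻¹ then (if z.1.trace = 0 then nf z else 0) else 0) := by
    intro x
    by_cases hx : x = z⁻¹
    · subst hx
      rw [inv_mul_cancel, trace_one, trace_inv, if_pos rfl, nf_inv]
      by_cases ht : z.1.trace = 0
      · rw [if_pos ht, cj_comm, cj_one_left (inv_ne_one.2 hz), sub_self]
      · rw [if_neg ht, cj_eq_zero, sub_zero]
        rw [trace_one, trace_inv]
        exact ht
    · rw [if_neg hx, sub_zero]
      have hx' : x * z ≠ 1 := fun h => hx (eq_inv_of_mul_eq_one_left h)
      by_cases ht : x.1.trace = (x * z).1.trace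
      · rw [if_pos ht, cj_eq_nf' hx' ht]
      · rw [if_neg ht, cj_eq_zero ht]
  rw [cm_eq, sum_congr rfl fun x _ => h1 x, sum_sub_distrib, sum_ite_eq' univ z⁻¹,
    if_pos (mem_univ _)]
  congr 1
  have h2 : ∀ x : SL F, (if x.1.trace = (x * z).1.trace then nf x else 0) =
      ∑ p : PL F, if x.1.trace = (x * z).1.trace ∧ x • p ≠ p then (1 : ℤ) else 0 := by
    intro x
    by_cases ht : x.1.trace = (x * z).1.trace
    · rw [if_pos ht]
      unfold nf
      rw [card_filter]
      push_cast
      exact sum_congr rfl fun p _ => by simp [ht]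
    · rw [if_neg ht]
      symm
      exact sum_eq_zero fun p _ => if_neg fun h => ht h.1
  rw [sum_congr rfl fun x _ => h2 x, sum_comm]
  refine sum_congr rfl fun p _ => ?_
  unfold Wc
  rw [card_filter]
  push_cast
  rfl

theorem trace_conj (h x : SL F) : (h⁻¹ * x * h).1.trace = x.1.trace := by
  refine trace_of_conj (y := h) ?_
  rw [mul_assoc, mul_inv_cancel_left]

theorem Wc_smul (h : SL F) (p : PL F) (z : SL F) : Wc (h • p) z = Wc p (h⁻¹ * z * h) := by
  classical
  unfold Wc
  congr 1
  have key : ∀ x : SL F, (h⁻¹ * x * h) * (h⁻¹ * z * h) = h⁻¹ * (x * z) * h := fun x => by group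
  refine card_bij' (fun x _ => h⁻¹ * x * h) (fun x _ => h * x * h⁻¹) ?_ ?_ ?_ ?_
  · intro x hx
    simp only [mem_filter, mem_univ, true_and] at hx ⊢
    constructor
    · rw [key, trace_conj, trace_conj]
      exact hx.1
    · intro h'
      apply hx.2
      rw [mul_smul, mul_smul, inv_smul_eq_iff] at h'
      exact h'
  · intro x hx
    simp only [mem_filter, mem_univ, true_and] at hx ⊢
    have h1 : h⁻¹ * (h * x * h⁻¹) * h = x := by group
    constructor
    · rw [← trace_conj h (h * x * h⁻¹), ← trace_conj h (h * x * h⁻¹ * z), ← key, h1]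
      exact hx.1
    · intro h'
      apply hx.2
      rw [mul_smul, mul_smul, inv_smul_smul, smul_left_cancel_iff] at h'
      exact h'
  · intro x _
    group
  · intro x _
    group

end Pool.Agent.SurfCnt
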