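import Mathlib
import Pool.Agent.Lib.MP_305fdd_al.Surf.CntD

/-!
# MP_305fdd_al, closed surface groups, block COUNT: the number of `(x, y)` with `[x, y] = z`, III

The values of `Wc p z`.
-/

set_option autoImplicit false

namespace Pool.Agent.SurfCnt

open Finset LinearAlgebra.Projectivization

section field

variable {F : Type} [Field F] [Fintype F] [DecidableEq F]

/-- `u v = k` -/
theorem card_mul_eq (k : F) : ((univ.filter fun t : F × F => t.1 * t.2 = k).card : ℤ) =
    Fintype.card F - 1 + (if k = 0 then (Fintype.card F : ℤ) else 0) := by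
  have h1 : (univ.filter fun t : F × F => t.1 * t.2 = k).card =
      ∑ u : F, (univ.filter fun v : F => u * v = k).card := by
    rw [card_filter, ← univ_product_univ, sum_product]
    exact sum_congr rfl fun x _ => by rw [card_filter]
  have h2 : ∀ u : F, ((univ.filter fun v : F => u * v = k).card : ℤ) =
      1 + (if u = 0 then ((if k = 0 then (Fintype.card F : ℤ) else 0) - 1) else 0) := by
    intro u
    by_cases hu : u = 0
    · subst hu
      rw [if_pos rfl]
      by_cases hk : k = 0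
      · subst hk
        simp
      · rw [if_neg hk]
        simp [Ne.symm hk]
    · rw [if_neg hu, add_zero]
      have : (univ.filter fun v : F => u * v = k) = {k / u} := by
        ext v
        simp only [mem_filter, mem_univ, true_and, mem_singleton]
        rw [eq_div_iff hu, mul_comm]
      rw [this, card_singleton, Nat.cast_one]
  rw [h1]
  push_cast
  rw [sum_congr rfl fun u _ => h2 u, sum_add_distrib, sum_ite_eq' univ (0 : F),
    if_pos (mem_univ _), sum_const, card_univ, nsmul_eq_mul, mul_one]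
  ring

end field

variable {F : Type} [Field F] [CharP F 2] [Fintype F]

/-- the first basic line -/
noncomputable def e0 : PL F := Projectivization.mk F ![1, 0] (by simp)

theorem fix_e0 (x : SL F) : x • (e0 : PL F) = e0 ↔ x.1 1 0 = 0 := by
  unfold e0
  rw [fix_iff]
  unfold dt
  rw [smul_apply0, smul_apply1]
  simp

/-- the equation in the entries -/
def Eqn (z : SL F) (c a d : F) : Prop :=
  c * a * (z.1 0 0 + 1) + c * d * (z.1 1 1 + 1) + c * c * z.1 0 1 + (1 + a * d) * z.1 1 0 = 0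

theorem trace_mul (x z : SL F) : (x * z).1.trace =
    x.1 0 0 * z.1 0 0 + x.1 0 1 * z.1 1 0 + (x.1 1 0 * z.1 0 1 + x.1 1 1 * z.1 1 1) := by
  rw [tr_eq, Matrix.SpecialLinearGroup.coe_mul]
  simp [Matrix.mul_apply, Fin.sum_univ_two]

theorem trace_eq_iff (x z : SL F) (hx : x.1 1 0 ≠ 0) :
    x.1.trace = (x * z).1.trace ↔ Eqn z (x.1 1 0) (x.1 0 0) (x.1 1 1) := by
  have hd := det_eq x
  have h2 : (2 : F) = 0 := CharTwo.two_eq_zero
  rw [trace_mul, tr_eq, Eqn, ← CharTwo.add_eq_zero]
  have h1 : x.1 1 0 * x.1 0 0 * (z.1 0 0 + 1) + x.1 1 0 * x.1 1 1 * (z.1 1 1 + 1) +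
      x.1 1 0 * x.1 1 0 * z.1 0 1 + (1 + x.1 0 0 * x.1 1 1) * z.1 1 0 =
      x.1 1 0 * (x.1 0 0 + x.1 1 1 + (x.1 0 0 * z.1 0 0 + x.1 0 1 * z.1 1 0 +
        (x.1 1 0 * z.1 0 1 + x.1 1 1 * z.1 1 1))) := by
    linear_combination (- z.1 1 0) * hd + (x.1 0 0 * x.1 1 1 * z.1 1 0) * h2
  rw [h1, mul_eq_zero, or_iff_right hx]

/-- the number of the `(a, d)` -/
noncomputable def ne (z : SL F) (c : F) : ℤ :=
  open Classical in ((univ.filter fun t : F × F => Eqn z c t.1 t.2).card : ℤ)

theorem Wc_e0 (z : SL F) :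
    Wc e0 z = ∑ c : F, (open Classical in if c = 0 then 0 else ne z c) := by
  classical
  unfold Wc
  have h1 : (univ.filter fun x : SL F => x.1.trace = (x * z).1.trace ∧ x • (e0 : PL F) ≠ e0).card =
      (univ.filter fun t : F × F × F => t.1 ≠ 0 ∧ Eqn z t.1 t.2.1 t.2.2).card := by
    refine card_bij (fun x _ => (x.1 1 0, x.1 0 0, x.1 1 1)) ?_ ?_ ?_
    · intro x hx
      simp only [mem_filter, mem_univ, true_and] at hx ⊢
      have hc : x.1 1 0 ≠ 0 := fun h => hx.2 ((fix_e0 x).2 h)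
      exact ⟨hc, (trace_eq_iff x z hc).1 hx.1⟩
    · intro x hx y hy h
      simp only [mem_filter, mem_univ, true_and] at hx hy
      have hc : x.1 1 0 ≠ 0 := fun h => hx.2 ((fix_e0 x).2 h)
      have hx1 := det_eq x
      have hy1 := det_eq y
      simp only [Prod.mk.injEq] at h
      obtain ⟨h10, h00, h11⟩ := h
      have h01 : x.1 0 1 = y.1 0 1 := by
        rw [← h10, ← h00, ← h11] at hy1
        have := hx1.trans hy1.symm
        exact mul_right_cancel₀ hc (add_left_cancel this)
      ext i j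
      fin_cases i <;> fin_cases j
      · exact h00
      · exact h01
      · exact h10
      · exact h11
    · rintro ⟨c, a, d⟩ ht
      simp only [mem_filter, mem_univ, true_and] at ht
      obtain ⟨hc, he⟩ := ht
      let x : SL F := ⟨!![a, (1 + a * d) / c; c, d], by
        rw [Matrix.det_fin_two_of, CharTwo.sub_eq_add, div_mul_cancel₀ _ hc]
        have h2 : (2 : F) = 0 := CharTwo.two_eq_zero
        linear_combination a * d * h2⟩
      have hx10 : x.1 1 0 = c := rfl
      have hx00 : x.1 0 0 = a := rfl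
      have hx11 : x.1 1 1 = d := rfl
      refine ⟨x, ?_, ?_⟩
      · simp only [mem_filter, mem_univ, true_and]
        refine ⟨(trace_eq_iff x z (by rw [hx10]; exact hc)).2 ?_, ?_⟩
        · rw [hx10, hx00, hx11]
          exact he
        · rw [ne_eq, fix_e0, hx10]
          exact hc
      · rw [hx10, hx00, hx11]
  rw [h1]
  have h3 : (univ.filter fun t : F × F × F => t.1 ≠ 0 ∧ Eqn z t.1 t.2.1 t.2.2).card =
      ∑ c : F, (univ.filter fun t : F × F => c ≠ 0 ∧ Eqn z c t.1 t.2).card := by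
    rw [card_filter, ← univ_product_univ, sum_product]
    exact sum_congr rfl fun x _ => by rw [card_filter]
  rw [h3]
  push_cast
  refine sum_congr rfl fun c _ => ?_
  unfold ne
  by_cases hc : c = 0
  · simp [hc]
  · simp [hc]

theorem sum_ne_zero (k : ℤ) :
    ∑ c : F, (open Classical in if c = 0 then (0 : ℤ) else k) = (Fintype.card F - 1) * k := by
  classical
  have h : ∀ c : F, (if c = 0 then (0 : ℤ) else k) = k - (if c = 0 then k else 0) := by
    intro c
    by_cases hc : c = 0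
    · simp [hc]
    · simp [hc]
  rw [sum_congr rfl fun c _ => h c, sum_sub_distrib, sum_ite_eq' univ (0 : F),
    if_pos (mem_univ _), sum_const, card_univ, nsmul_eq_mul]
  ring

/-- `z` fixes the line, trace `≠ 0` -/
theorem Wc_e0_fix {z : SL F} (h : z.1 1 0 = 0) (ht : z.1.trace ≠ 0) :
    Wc e0 z = (Fintype.card F - 1) * Fintype.card F := by
  classical
  rw [Wc_e0, ← sum_ne_zero]
  refine sum_congr rfl fun c _ => ?_
  by_cases hc : c = 0
  · rw [if_pos hc, if_pos hc]
  · rw [if_neg hc, if_neg hc]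
    unfold ne
    congr 1
    have hd := det_eq z
    rw [h, mul_zero, add_zero] at hd
    have h2 : (2 : F) = 0 := CharTwo.two_eq_zero
    have h00 : z.1 0 0 + 1 ≠ 0 := by
      intro h0
      rw [CharTwo.add_eq_zero] at h0
      rw [h0, one_mul] at hd
      apply ht
      rw [tr_eq, h0, hd, CharTwo.add_self_eq_zero]
    rw [← card_univ]
    refine card_bij (fun t _ => t.2) (fun _ _ => mem_univ _) ?_ ?_
    · rintro ⟨a, d⟩ h1 ⟨a', d'⟩ h3 h4
      simp only [mem_filter, mem_univ, true_and, Eqn, h, mul_zero, add_zero] at h1 h3 h4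
      subst h4
      have h5 := h1.trans h3.symm
      have h6 := add_right_cancel (add_right_cancel h5)
      have h7 := mul_left_cancel₀ hc (mul_right_cancel₀ h00 h6)
      rw [h7]
    · intro d _
      refine ⟨((d * (z.1 1 1 + 1) + c * z.1 0 1) / (z.1 0 0 + 1), d), ?_, rfl⟩
      simp only [mem_filter, mem_univ, true_and, Eqn, h, mul_zero, add_zero]
      rw [mul_assoc c, div_mul_cancel₀ _ h00]
      linear_combination c * (d * (z.1 1 1 + 1) + c * z.1 0 1) * h2

/-- `z` fixes the line, trace `0` -/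
theorem Wc_e0_fix' {z : SL F} (h : z.1 1 0 = 0) (ht : z.1.trace = 0) (hz : z ≠ 1) :
    Wc e0 z = 0 := by
  classical
  rw [Wc_e0]
  refine sum_eq_zero fun c _ => ?_
  by_cases hc : c = 0
  · rw [if_pos hc]
  · rw [if_neg hc]
    unfold ne
    rw [Nat.cast_eq_zero, card_eq_zero, filter_eq_empty_iff]
    rintro ⟨a, d⟩ _ h1
    have hd := det_eq z
    rw [h, mul_zero, add_zero] at hd
    have h2 : (2 : F) = 0 := CharTwo.two_eq_zero
    rw [tr_eq, CharTwo.add_eq_zero] at ht
    rw [← ht] at hd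
    have h00 : z.1 0 0 = 1 := by
      have : (z.1 0 0 + 1) * (z.1 0 0 + 1) = 0 := by linear_combination hd + (z.1 0 0 + 1) * h2
      exact CharTwo.add_eq_zero.1 (mul_self_eq_zero.1 this)
    have h11 : z.1 1 1 = 1 := by rw [← ht, h00]
    simp only [Eqn, h, h00, h11, CharTwo.add_self_eq_zero, mul_zero, add_zero, zero_add] at h1
    have h01 : z.1 0 1 = 0 := (mul_eq_zero.1 h1).resolve_left (mul_ne_zero hc hc)
    apply hz
    ext i j
    fin_cases i <;> fin_cases j <;> simp [h, h00, h11, h01]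

theorem ne_eq' {z : SL F} (h : z.1 1 0 ≠ 0) (c : F) : ne z c =
    Fintype.card F - 1 + (open Classical in
      if z.1 1 0 * z.1 1 0 + c * c * z.1.trace = 0 then (Fintype.card F : ℤ) else 0) := by
  classical
  rw [← card_mul_eq]
  unfold ne
  congr 1
  have hd := det_eq z
  have h2 : (2 : F) = 0 := CharTwo.two_eq_zero
  refine card_bij' (fun t _ => (z.1 1 0 * t.1 + c * (z.1 1 1 + 1), z.1 1 0 * t.2 + c * (z.1 0 0 + 1)))
    (fun t _ => ((t.1 + c * (z.1 1 1 + 1)) / z.1 1 0, (t.2 + c * (z.1 0 0 + 1)) / z.1 1 0))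
    ?_ ?_ ?_ ?_
  · rintro ⟨a, d⟩ ht
    simp only [mem_filter, mem_univ, true_and, Eqn] at ht ⊢
    rw [tr_eq]
    linear_combination (z.1 1 0) * ht + c * c * hd + (- (z.1 1 0 * z.1 1 0) + c * c *
      (1 - z.1 0 1 * z.1 1 0)) * h2
  · rintro ⟨u, v⟩ ht
    simp only [mem_filter, mem_univ, true_and, Eqn] at ht ⊢
    rw [tr_eq] at ht
    have h3 : z.1 1 0 * (c * ((u + c * (z.1 1 1 + 1)) / z.1 1 0) * (z.1 0 0 + 1) +
        c * ((v + c * (z.1 0 0 + 1)) / z.1 1 0) * (z.1 1 1 + 1) + c * c * z.1 0 1 +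
        (1 + (u + c * (z.1 1 1 + 1)) / z.1 1 0 * ((v + c * (z.1 0 0 + 1)) / z.1 1 0)) * z.1 1 0) =
        c * (u + c * (z.1 1 1 + 1)) * (z.1 0 0 + 1) + c * (v + c * (z.1 0 0 + 1)) * (z.1 1 1 + 1) +
        c * c * z.1 0 1 * z.1 1 0 + (z.1 1 0 * z.1 1 0 +
          (u + c * (z.1 1 1 + 1)) * (v + c * (z.1 0 0 + 1))) := by
      field_simp
    have h4 : c * (u + c * (z.1 1 1 + 1)) * (z.1 0 0 + 1) + c * (v + c * (z.1 0 0 + 1)) *
        (z.1 1 1 + 1) + c * c * z.1 0 1 * z.1 1 0 + (z.1 1 0 * z.1 1 0 +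
          (u + c * (z.1 1 1 + 1)) * (v + c * (z.1 0 0 + 1))) = 0 := by
      linear_combination ht + c * c * hd + (z.1 1 0 * z.1 1 0 + c * u * (z.1 0 0 + 1) +
        c * v * (z.1 1 1 + 1) + c * c * (z.1 0 0 + 1) * (z.1 1 1 + 1) + c * c *
          (z.1 0 0 + z.1 1 1 + 1)) * h2
    rw [h4] at h3
    exact (mul_eq_zero.1 h3).resolve_left h
  · rintro ⟨a, d⟩ ht
    simp only [Prod.mk.injEq]
    constructor
    · rw [div_eq_iff h]
      linear_combination (c * (z.1 1 1 + 1)) * h2
    · rw [div_eq_iff h]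
      linear_combination (c * (z.1 0 0 + 1)) * h2
  · rintro ⟨u, v⟩ ht
    simp only [Prod.mk.injEq]
    constructor
    · rw [mul_div_cancel₀ _ h]
      linear_combination (c * (z.1 1 1 + 1)) * h2
    · rw [mul_div_cancel₀ _ h]
      linear_combination (c * (z.1 0 0 + 1)) * h2

/-- `z` moves the line, trace `0` -/
theorem Wc_e0_mov' {z : SL F} (h : z.1 1 0 ≠ 0) (ht : z.1.trace = 0) :
    Wc e0 z = (Fintype.card F - 1) * (Fintype.card F - 1) := by
  classical
  rw [Wc_e0, ← sum_ne_zero]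
  refine sum_congr rfl fun c _ => ?_
  by_cases hc : c = 0
  · rw [if_pos hc, if_pos hc]
  · rw [if_neg hc, if_neg hc, ne_eq' h, ht, mul_zero, add_zero, if_neg (mul_ne_zero h h), add_zero]

/-- `z` moves the line, trace `≠ 0` -/
theorem Wc_e0_mov {z : SL F} (h : z.1 1 0 ≠ 0) (ht : z.1.trace ≠ 0) :
    Wc e0 z = (Fintype.card F - 1) * (Fintype.card F - 1) + Fintype.card F := by
  classical
  obtain ⟨c0, hc0⟩ := exists_sq (z.1 1 0 * z.1 1 0 / z.1.trace)
  have hc00 : c0 ≠ 0 := by
    rintro rfl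
    rw [mul_zero] at hc0
    exact div_ne_zero (mul_ne_zero h h) ht hc0.symm
  have h2 : (2 : F) = 0 := CharTwo.two_eq_zero
  have key : ∀ c : F, (if c = 0 then (0 : ℤ) else ne z c) =
      (if c = 0 then (0 : ℤ) else (Fintype.card F - 1)) +
        (if c = c0 then (Fintype.card F : ℤ) else 0) := by
    intro c
    by_cases hc : c = 0
    · rw [if_pos hc, if_pos hc, hc, if_neg (Ne.symm hc00), add_zero]
    · rw [if_neg hc, if_neg hc, ne_eq' h]
      congr 1
      have : z.1 1 0 * z.1 1 0 + c * c * z.1.trace = 0 ↔ c = c0 := by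
        rw [CharTwo.add_eq_zero, ← div_eq_iff ht, ← hc0]
        constructor
        · intro h3
          have : (c + c0) * (c + c0) = 0 := by linear_combination -h3 + (c0 * c0 + c * c0) * h2
          exact CharTwo.add_eq_zero.1 (mul_self_eq_zero.1 this)
        · intro h3
          rw [h3]
      simp only [this]
  rw [Wc_e0, sum_congr rfl fun c _ => key c, sum_add_distrib, sum_ne_zero, sum_ite_eq' univ c0,
    if_pos (mem_univ _)]

end Pool.Agent.SurfCnt
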