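import Mathlib
import Pool.Agent.Lib.MP_305fdd_al.Surf.CntE

/-!
# MP_305fdd_al, closed surface groups, block COUNT: the number of `(x, y)` with `[x, y] = z`, IV

`cm z = q ^ 3 + 1 - fx z` for trace `≠ 0`, `cm z = q ^ 2 (q - 2)` for `z ≠ 1` of trace `0`, and
`cm 1 = (q + 1) |G|`.  In all cases `q ^ 2 ∣ cm z + (fx z - 1)`.
-/

set_option autoImplicit false

namespace Pool.Agent.SurfCnt

open Finset LinearAlgebra.Projectivization

variable {F : Type} [Field F] [CharP F 2] [Fintype F]

theorem Wc_transport (p : PL F) (z : SL F) : ∃ h : SL F, Wc p z = Wc e0 (h⁻¹ * z * h) ∧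
    ((h⁻¹ * z * h).1 1 0 = 0 ↔ z • p = p) ∧ (h⁻¹ * z * h).1.trace = z.1.trace ∧
    (h⁻¹ * z * h = 1 ↔ z = 1) := by
  obtain ⟨h, hh⟩ := MulAction.exists_smul_eq (SL F) (e0 : PL F) p
  refine ⟨h, ?_, ?_, trace_conj _ _, ?_⟩
  · rw [← hh, Wc_smul]
  · rw [← fix_e0, mul_smul, mul_smul, inv_smul_eq_iff, hh]
  · constructor
    · intro h1
      have h2 : z = h * (h⁻¹ * z * h) * h⁻¹ := by group
      rw [h2, h1]
      group
    · rintro rfl
      group

theorem Wc_eq {p : PL F} {z : SL F} (ht : z.1.trace ≠ 0) : Wc p z =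
    (Fintype.card F - 1) * Fintype.card F + (open Classical in if z • p ≠ p then (1 : ℤ) else 0) := by
  classical
  obtain ⟨h, h1, h2, h3, h4⟩ := Wc_transport p z
  rw [h1]
  by_cases hp : z • p = p
  · rw [if_neg (not_not.2 hp), add_zero]
    exact Wc_e0_fix (h2.2 hp) (by rw [h3]; exact ht)
  · rw [if_pos hp, Wc_e0_mov (fun h5 => hp (h2.1 h5)) (by rw [h3]; exact ht)]
    ring

theorem Wc_eq' {p : PL F} {z : SL F} (hz : z ≠ 1) (ht : z.1.trace = 0) : Wc p z =
    (open Classical in if z • p ≠ p then (Fintype.card F - 1 : ℤ) * (Fintype.card F - 1) else 0) := by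
  classical
  obtain ⟨h, h1, h2, h3, h4⟩ := Wc_transport p z
  rw [h1]
  by_cases hp : z • p = p
  · rw [if_neg (not_not.2 hp)]
    exact Wc_e0_fix' (h2.2 hp) (by rw [h3]; exact ht) fun h5 => hz (h4.1 h5)
  · rw [if_pos hp, Wc_e0_mov' (fun h5 => hp (h2.1 h5)) (by rw [h3]; exact ht)]

theorem sum_moved (z : SL F) (k : ℤ) :
    ∑ p : PL F, (open Classical in if z • p ≠ p then k else 0) = nf z * k := by
  classical
  unfold nf
  rw [← sum_filter, sum_const, nsmul_eq_mul]

theorem nf_unip {z : SL F} (hz : z ≠ 1) (ht : z.1.trace = 0) : nf z = Fintype.card F := by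
  classical
  have h2 : (2 : F) = 0 := CharTwo.two_eq_zero
  obtain ⟨α, hα⟩ := exists_sq (z.1 1 0)
  obtain ⟨β, hβ⟩ := exists_sq (z.1 0 1)
  have hd := det_eq z
  have ht' := ht
  rw [tr_eq, CharTwo.add_eq_zero] at ht'
  have hv : (![β, α] : Fin 2 → F) ≠ 0 := by
    intro h
    have h0 : β = 0 := congrFun h 0
    have h1 : α = 0 := congrFun h 1
    rw [h0, mul_zero] at hβ
    rw [h1, mul_zero] at hα
    rw [← hα, mul_zero, add_zero, ← ht'] at hd
    have h00 : z.1 0 0 = 1 := by
      have : (z.1 0 0 + 1) * (z.1 0 0 + 1) = 0 := by linear_combination hd + (z.1 0 0 + 1) * h2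
      exact CharTwo.add_eq_zero.1 (mul_self_eq_zero.1 this)
    have h11 : z.1 1 1 = 1 := by rw [← ht', h00]
    apply hz
    ext i j
    fin_cases i <;> fin_cases j <;> simp [← hα, ← hβ, h00, h11]
  have key : (univ.filter fun p : PL F => z • p = p) = {Projectivization.mk F ![β, α] hv} := by
    ext p
    simp only [mem_filter, mem_univ, true_and, mem_singleton]
    induction p using Projectivization.ind with
    | h v hv0 =>
      rw [fix_iff, ← dt_eq_zero_iff]
      have h3 : dt v (z • v) = dt v ![β, α] * dt v ![β, α] := by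
        unfold dt
        rw [smul_apply0, smul_apply1]
        simp only [Matrix.cons_val_zero, Matrix.cons_val_one]
        linear_combination (v 0 * v 1) * ht' - (v 0 * v 0) * hα - (v 1 * v 1) * hβ +
          (v 0 * v 1 * z.1 1 1 - v 0 * v 1 * α * β) * h2
      rw [h3, mul_self_eq_zero]
  have h4 : fx (PL F) z = 1 := by
    unfold fx
    rw [key, card_singleton, Nat.cast_one]
  rw [nf_eq, h4]
  ring

/-- the order of `SL_2` over a finite field -/
theorem natCard_SL (F : Type) [Field F] [Finite F] :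
    Nat.card (SL F) = Nat.card F * (Nat.card F ^ 2 - 1) := by
  classical
  have := Fintype.ofFinite F
  have h1 : Nat.card (GL (Fin 2) F) = (Nat.card F ^ 2 - 1) * (Nat.card F ^ 2 - Nat.card F) := by
    rw [Matrix.card_GL_field, Fin.prod_univ_two, ← Nat.card_eq_fintype_card]
    simp
  let D : GL (Fin 2) F →* Fˣ := Matrix.GeneralLinearGroup.det
  have hD : Function.Surjective D := by
    intro u
    refine ⟨Matrix.GeneralLinearGroup.mkOfDetNeZero !![(u : F), 0; 0, 1] (by simp), ?_⟩
    ext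
    simp [D, Matrix.GeneralLinearGroup.mkOfDetNeZero]
  have h2 : Nat.card (GL (Fin 2) F) = Nat.card Fˣ * Nat.card D.ker := by
    rw [Subgroup.card_eq_card_quotient_mul_card_subgroup D.ker,
      Nat.card_congr (QuotientGroup.quotientKerEquivOfSurjective D hD).toEquiv]
  have h3 : Nat.card D.ker = Nat.card (Matrix.SpecialLinearGroup (Fin 2) F) := by
    refine Nat.card_congr ⟨fun x => ⟨x.1.1, ?_⟩, fun x => ⟨(x : GL (Fin 2) F), ?_⟩, ?_, ?_⟩
    · have h := congrArg Units.val (MonoidHom.mem_ker.mp x.2)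
      simpa [D] using h
    · rw [MonoidHom.mem_ker]
      ext
      simp [D]
    · intro x
      ext
      rfl
    · intro x
      ext
      rfl
  have h4 : Nat.card Fˣ = Nat.card F - 1 := Nat.card_units F
  have hq : 1 < Nat.card F := Finite.one_lt_card
  rw [h1, h3, h4] at h2
  obtain ⟨m, hm⟩ : ∃ m, Nat.card F = m + 2 := ⟨Nat.card F - 2, by omega⟩
  rw [hm] at h2 ⊢
  have e1 : (m + 2) ^ 2 - (m + 2) = (m + 1) * (m + 2) := by
    zify [show m + 2 ≤ (m + 2) ^ 2 by nlinarith]
    ring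
  have e2 : m + 2 - 1 = m + 1 := rfl
  rw [e1, e2] at h2
  have h5 : (m + 1) * Nat.card (Matrix.SpecialLinearGroup (Fin 2) F) =
      (m + 1) * ((m + 2) * ((m + 2) ^ 2 - 1)) := by
    rw [← h2]
    ring
  exact Nat.eq_of_mul_eq_mul_left (Nat.succ_pos m) h5

theorem card_SL : (Fintype.card (SL F) : ℤ) =
    Fintype.card F * ((Fintype.card F : ℤ) ^ 2 - 1) := by
  have h := natCard_SL F
  rw [Nat.card_eq_fintype_card, Nat.card_eq_fintype_card] at h
  have h1 : 1 ≤ Fintype.card F ^ 2 := Nat.one_le_pow _ _ Fintype.card_pos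
  rw [h]
  push_cast [h1]
  ring

theorem two_le_card_PL : 2 ≤ Fintype.card (PL F) := by
  have h := card_PL (F := F)
  have h1 : 1 ≤ Fintype.card F := Fintype.card_pos
  omega

theorem cm_one : cm (1 : SL F) = (Fintype.card F + 1) * Fintype.card (SL F) := by
  classical
  rw [cm_eq]
  have h1 : ∀ x : SL F, cj x (x * 1) = (if x = 1 then (Fintype.card (SL F) : ℤ) else 0) +
      ((Fintype.card F : ℤ) + 1 - fx (PL F) x) := by
    intro x
    rw [mul_one, ← nf_eq]
    by_cases hx : x = 1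
    · subst hx
      rw [if_pos rfl, nf_one, add_zero]
      unfold cj
      simp
    · rw [if_neg hx, zero_add, cj_eq_nf hx rfl]
  rw [sum_congr rfl fun x _ => h1 x, sum_add_distrib, sum_ite_eq' univ (1 : SL F),
    if_pos (mem_univ _), sum_sub_distrib, fx_sum _ two_le_card_PL, sum_const, card_univ,
    nsmul_eq_mul]
  ring

theorem fx_one : fx (PL F) (1 : SL F) = Fintype.card F + 1 := by
  have h := nf_eq (1 : SL F)
  rw [nf_one] at h
  linarith

theorem cm_val (z : SL F) : ∃ k : ℤ,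
    cm z = (Fintype.card F : ℤ) ^ 2 * k - (fx (PL F) z - 1) := by
  classical
  by_cases hz : z = 1
  · subst hz
    refine ⟨(Fintype.card F : ℤ) ^ 2 + Fintype.card F - 1, ?_⟩
    rw [cm_one, fx_one, card_SL]
    ring
  rw [cm_sum hz]
  by_cases ht : z.1.trace = 0
  · refine ⟨(Fintype.card F : ℤ) - 2, ?_⟩
    have h0 := nf_eq z
    rw [sum_congr rfl fun p _ => Wc_eq' hz ht, sum_moved, if_pos ht]
    rw [nf_unip hz ht] at h0 ⊢
    have h1 : fx (PL F) z = 1 := by linarith
    rw [h1]
    ring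
  · refine ⟨(Fintype.card F : ℤ), ?_⟩
    have h0 := nf_eq z
    rw [sum_congr rfl fun p _ => Wc_eq ht, sum_add_distrib, sum_moved, if_neg ht, sum_const,
      card_univ, nsmul_eq_mul, card_PL, h0]
    ring

end Pool.Agent.SurfCnt
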