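import Mathlib
import Pool.Agent.Lib.MP_305fdd_al.Surf.CntF

/-!
# MP_305fdd_al, closed surface groups, block COUNT: products of `g` commutators

`NN g z`: the number of `(x_i, y_i)`, `i < g`, in `SL(2, F)` with `∏ [x_i, y_i] = z`; for `g ≥ 1`
the number `NN g z + (fx z - 1)` is divisible by `q ^ 2`.
-/

set_option autoImplicit false

namespace Pool.Agent.SurfCnt

open Finset LinearAlgebra.Projectivization

open scoped commutatorElement

section gen

variable {G : Type} [Group G] [Fintype G]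

/-- the number of the `g`-tuples of pairs with product of commutators `z` -/
noncomputable def NN (g : ℕ) (z : G) : ℤ :=
  open Classical in
  ((univ.filter fun t : Fin g → G × G => (List.ofFn fun i => ⁅(t i).1, (t i).2⁆).prod = z).card : ℤ)

theorem NN_zero (z : G) : NN 0 z = (open Classical in if z = 1 then (1 : ℤ) else 0) := by
  classical
  unfold NN
  by_cases hz : z = 1
  · subst hz
    simp
  · simp [hz, Ne.symm hz]

theorem NN_succ (g : ℕ) (z : G) :
    NN (g + 1) z = ∑ p : G × G, NN g (⁅p.1, p.2⁆⁻¹ * z) := by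
  classical
  unfold NN
  rw [card_filter, ← Equiv.sum_comp (Fin.consEquiv fun _ : Fin (g + 1) => G × G),
    ← univ_product_univ, sum_product]
  push_cast
  refine sum_congr rfl fun p _ => ?_
  rw [card_filter]
  push_cast
  refine sum_congr rfl fun t _ => ?_
  simp only [Fin.consEquiv_apply, List.ofFn_succ, Fin.cons_zero, Fin.cons_succ, List.prod_cons,
    eq_inv_mul_iff_mul_eq]

end gen

variable {F : Type} [Field F] [CharP F 2] [Fintype F]

theorem sum_cm (f : SL F → ℤ) : ∑ p : SL F × SL F, f ⁅p.1, p.2⁆ = ∑ u : SL F, cm u * f u := by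
  classical
  rw [← sum_fiberwise (s := univ) (g := fun p : SL F × SL F => ⁅p.1, p.2⁆)]
  refine sum_congr rfl fun u _ => ?_
  unfold cm
  rw [sum_congr rfl (g := fun _ => f u) (fun p hp => by rw [(mem_filter.1 hp).2]), sum_const,
    nsmul_eq_mul]

/-- the Steinberg character -/
noncomputable def St (z : SL F) : ℤ := fx (PL F) z - 1

theorem St_conv (w : SL F) : ∑ z : SL F, St z * St (z⁻¹ * w) =
    ((Fintype.card F : ℤ) ^ 2 - 1) * St w := by
  classical
  have h1 := fx_conv (G := SL F) (PL F) two_le_card_PL w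
  have h2 := fx_sum (G := SL F) (PL F) two_le_card_PL
  have h3 : ∑ z : SL F, fx (PL F) (z⁻¹ * w) = Fintype.card (SL F) := by
    rw [← h2]
    refine Fintype.sum_equiv ((Equiv.inv (SL F)).trans (Equiv.mulRight w)) _ _ fun z => ?_
    rfl
  rw [card_PL, card_SL] at h1
  have hq : (Fintype.card F : ℤ) ≠ 0 := by
    have : 0 < Fintype.card F := Fintype.card_pos
    omega
  have h4 : ∑ z : SL F, fx (PL F) z * fx (PL F) (z⁻¹ * w) =
      ((Fintype.card F : ℤ) ^ 2 - 1) * (fx (PL F) w + Fintype.card F - 1) := by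
    apply mul_left_cancel₀ hq
    linear_combination h1
  have h5 : ∀ z : SL F, St z * St (z⁻¹ * w) = fx (PL F) z * fx (PL F) (z⁻¹ * w) - fx (PL F) z -
      fx (PL F) (z⁻¹ * w) + 1 := by
    intro z
    unfold St
    ring
  rw [sum_congr rfl fun z _ => h5 z, sum_add_distrib, sum_sub_distrib, sum_sub_distrib, h2, h3, h4,
    sum_const, card_univ, nsmul_eq_mul, card_SL]
  unfold St
  ring

theorem NN_val (g : ℕ) : ∃ k : SL F → ℤ, ∀ z : SL F,
    NN (g + 1) z = (Fintype.card F : ℤ) ^ 2 * k z - St z := by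
  classical
  choose c hc using cm_val (F := F)
  induction g with
  | zero =>
    refine ⟨c, fun z => ?_⟩
    rw [NN_succ]
    have h := hc z
    unfold St
    rw [← h]
    unfold cm
    rw [card_filter]
    push_cast
    refine sum_congr rfl fun p _ => ?_
    rw [NN_zero]
    congr 1
    rw [inv_mul_eq_one]
  | succ g ih =>
    obtain ⟨k, hk⟩ := ih
    refine ⟨fun z => St z + ∑ u : SL F, ((Fintype.card F : ℤ) ^ 2 * c u * k (u⁻¹ * z) -
      c u * St (u⁻¹ * z) - St u * k (u⁻¹ * z)), fun z => ?_⟩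
    rw [NN_succ, sum_cm fun u => NN (g + 1) (u⁻¹ * z)]
    have h1 : ∀ u : SL F, cm u * NN (g + 1) (u⁻¹ * z) = St u * St (u⁻¹ * z) +
        (Fintype.card F : ℤ) ^ 2 * ((Fintype.card F : ℤ) ^ 2 * c u * k (u⁻¹ * z) -
      c u * St (u⁻¹ * z) - St u * k (u⁻¹ * z)) := by
      intro u
      rw [hc u, hk]
      change ((Fintype.card F : ℤ) ^ 2 * c u - St u) * _ = _
      ring
    rw [sum_congr rfl fun u _ => h1 u, sum_add_distrib, ← mul_sum, St_conv]
    ring

/-- `q ^ 2` divides the number of the `g`-tuples plus `fx z - 1`, for `g ≥ 1` -/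
theorem dvd_NN {g : ℕ} (hg : 1 ≤ g) (z : SL F) :
    (Fintype.card F : ℤ) ^ 2 ∣ NN g z + (fx (PL F) z - 1) := by
  obtain ⟨g, rfl⟩ : ∃ m, g = m + 1 := ⟨g - 1, by omega⟩
  obtain ⟨k, hk⟩ := NN_val (F := F) g
  refine ⟨k z, ?_⟩
  rw [hk]
  unfold St
  ring

/-- the number of the `g`-tuples with trivial product is `- q` modulo `q ^ 2` -/
theorem dvd_NN_one {g : ℕ} (hg : 1 ≤ g) :
    (Fintype.card F : ℤ) ^ 2 ∣ NN g (1 : SL F) + Fintype.card F := by
  have h := dvd_NN hg (1 : SL F)
  rw [fx_one, add_sub_cancel_right] at h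
  exact h

end Pool.Agent.SurfCnt
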