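import Mathlib
import Pool.Agent.Lib.MP_305fdd_al.Surf.CntG

/-!
# MP_305fdd_al, closed surface groups, block COUNT: the closed surface group

`SurfG g`: the fundamental group of the closed orientable surface of genus `g`.  For `g ≥ 1` and
`q = 2 ^ k` the number of the homomorphisms to `SL(2, F_q)` is `- q` modulo `q ^ 2`.
-/

set_option autoImplicit false

namespace Pool.Agent.SurfCnt

open Finset LinearAlgebra.Projectivization

open scoped commutatorElement

/-- the relator `∏ [a_i, b_i]`, `a_i = (i, false)`, `b_i = (i, true)` -/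
def srel (g : ℕ) : FreeGroup (Fin g × Bool) :=
  (List.ofFn fun i : Fin g => ⁅FreeGroup.of (i, false), FreeGroup.of (i, true)⁆).prod

/-- the fundamental group of the closed orientable surface of genus `g` -/
abbrev SurfG (g : ℕ) := PresentedGroup ({srel g} : Set (FreeGroup (Fin g × Bool)))

theorem map_prod_comm {A B : Type} [Group A] [Group B] (φ : A →* B) {g : ℕ} (x y : Fin g → A) :
    φ (List.ofFn fun i => ⁅x i, y i⁆).prod = (List.ofFn fun i => ⁅φ (x i), φ (y i)⁆).prod := by
  rw [map_list_prod, List.map_ofFn]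
  congr 2
  ext i
  simp [map_commutatorElement]

/-- homomorphisms from the surface group are tuples with `∏ [x_i, y_i] = 1` -/
def homEquiv (g : ℕ) (G : Type) [Group G] : (SurfG g →* G) ≃
    {t : Fin g → G × G // (List.ofFn fun i => ⁅(t i).1, (t i).2⁆).prod = 1} where
  toFun φ := ⟨fun i => (φ (PresentedGroup.of (i, false)), φ (PresentedGroup.of (i, true))), by
    have h : φ ((PresentedGroup.mk {srel g}) (srel g)) = 1 := by
      rw [show PresentedGroup.mk {srel g} (srel g) = 1 from
        PresentedGroup.one_of_mem rfl, map_one]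
    rw [← h]
    change _ = (φ.comp (PresentedGroup.mk {srel g})) (srel g)
    unfold srel
    rw [map_prod_comm]
    rfl⟩
  invFun t := PresentedGroup.toGroup (rels := {srel g})
    (f := fun x : Fin g × Bool => if x.2 then (t.1 x.1).2 else (t.1 x.1).1) (by
      intro r hr
      rw [Set.mem_singleton_iff.1 hr]
      unfold srel
      rw [map_prod_comm]
      simpa using t.2)
  left_inv φ := by
    apply PresentedGroup.ext
    rintro ⟨i, b⟩
    rw [PresentedGroup.toGroup.of]
    cases b
    · simp
    · simp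
  right_inv t := by
    apply Subtype.ext
    funext i
    simp [PresentedGroup.toGroup.of]

theorem natCard_hom (g : ℕ) (G : Type) [Group G] [Fintype G] :
    (Nat.card (SurfG g →* G) : ℤ) = NN g (1 : G) := by
  classical
  rw [Nat.card_congr (homEquiv g G), Nat.card_eq_fintype_card, Fintype.card_subtype]
  rfl

/-- `q ^ 2 ∣ |Hom(SurfG g, SL(2, F_q))| + q`, `q` a power of `2` -/
theorem dvd_card_hom {g : ℕ} (hg : 1 ≤ g) (F : Type) [Field F] [CharP F 2] [Finite F] :
    Nat.card F ^ 2 ∣ Nat.card (SurfG g →* Matrix.SpecialLinearGroup (Fin 2) F) + Nat.card F := by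
  have := Fintype.ofFinite F
  have h := dvd_NN_one (F := F) hg
  rw [← natCard_hom, ← Nat.card_eq_fintype_card] at h
  exact_mod_cast h

/-- the same for the field with `2 ^ k` elements -/
theorem dvd_card_hom_GF {g : ℕ} (hg : 1 ≤ g) {k : ℕ} (hk : 1 ≤ k) :
    (2 ^ k) ^ 2 ∣
      Nat.card (SurfG g →* Matrix.SpecialLinearGroup (Fin 2) (GaloisField 2 k)) + 2 ^ k := by
  have hc : Nat.card (GaloisField 2 k) = 2 ^ k := GaloisField.card 2 k (by omega)
  have hf : Finite (GaloisField 2 k) := Nat.finite_of_card_ne_zero (by rw [hc]; positivity)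
  have h := dvd_card_hom hg (GaloisField 2 k)
  rw [hc] at h
  exact h

/-- the number of the homomorphisms is `2 ^ k * (odd number)`, and more precisely
`2 ^ k * (2 ^ k * a - 1)` -/
theorem card_hom_GF {g : ℕ} (hg : 1 ≤ g) {k : ℕ} (hk : 1 ≤ k) : ∃ a : ℤ,
    (Nat.card (SurfG g →* Matrix.SpecialLinearGroup (Fin 2) (GaloisField 2 k)) : ℤ) =
      2 ^ k * (2 ^ k * a - 1) := by
  obtain ⟨a, ha⟩ := dvd_card_hom_GF hg hk
  refine ⟨a, ?_⟩
  have h : (Nat.card (SurfG g →* Matrix.SpecialLinearGroup (Fin 2) (GaloisField 2 k)) : ℤ) + 2 ^ k =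
      (2 ^ k) ^ 2 * a := by exact_mod_cast ha
  linear_combination h

end Pool.Agent.SurfCnt
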