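import Mathlib
import Pool.Agent.Lib.MP_305fdd_al.Surf.CntH

/-!
# MP_305fdd_al, closed surface groups, block COUNT: the size of the number of homomorphisms

`|NN g z - (q ^ 3 - q) ^ (2 g - 1)| ≤ 4 ^ (g - 1) q ^ (4 g)`, so
`NN g z ≤ q ^ (6 g - 3) + 4 ^ (g - 1) q ^ (6 g - 4)` for `g ≥ 2`.
-/

set_option autoImplicit false

namespace Pool.Agent.SurfCnt

open Finset LinearAlgebra.Projectivization

open scoped commutatorElement

section gen

variable {G : Type} [Group G] [Fintype G]

theorem sum_NN (g : ℕ) : ∑ z : G, NN g z = (Fintype.card G : ℤ) ^ (2 * g) := by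
  classical
  unfold NN
  have h := card_eq_sum_card_fiberwise (s := (univ : Finset (Fin g → G × G)))
    (t := (univ : Finset G)) (f := fun t => (List.ofFn fun i => ⁅(t i).1, (t i).2⁆).prod)
    (fun _ _ => mem_univ _)
  have h2 : (∑ z : G, (((univ.filter fun t : Fin g → G × G =>
      (List.ofFn fun i => ⁅(t i).1, (t i).2⁆).prod = z).card : ℕ) : ℤ)) =
      ((univ : Finset (Fin g → G × G)).card : ℤ) := by
    rw [h]
    push_cast
    rfl
  rw [h2, card_univ, Fintype.card_fun, Fintype.card_prod, Fintype.card_fin, pow_mul]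
  push_cast
  ring

end gen

variable {F : Type} [Field F] [CharP F 2] [Fintype F]

theorem two_le_q : (2 : ℤ) ≤ Fintype.card F := by
  have h : 1 < Fintype.card F := Fintype.one_lt_card
  omega

/-- the deviation of `cm` from the mean -/
noncomputable def dv (z : SL F) : ℤ := cm z - Fintype.card (SL F)

theorem dv_one : dv (1 : SL F) = (Fintype.card F : ℤ) ^ 4 - (Fintype.card F : ℤ) ^ 2 := by
  unfold dv
  rw [cm_one, card_SL]
  ring

theorem dv_unip {z : SL F} (hz : z ≠ 1) (ht : z.1.trace = 0) :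
    dv z = Fintype.card F - 2 * (Fintype.card F : ℤ) ^ 2 := by
  classical
  unfold dv
  rw [cm_sum hz, sum_congr rfl fun p _ => Wc_eq' hz ht, sum_moved, if_pos ht, nf_unip hz ht,
    card_SL]
  ring

theorem dv_ss {z : SL F} (ht : z.1.trace ≠ 0) : dv z = nf z := by
  classical
  have hz : z ≠ 1 := by
    rintro rfl
    exact ht trace_one
  unfold dv
  rw [cm_sum hz, sum_congr rfl fun p _ => Wc_eq ht, sum_add_distrib, sum_moved, if_neg ht,
    sum_const, card_univ, nsmul_eq_mul, card_PL, card_SL]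
  ring

theorem nf_nonneg (z : SL F) : 0 ≤ nf z := by
  unfold nf
  positivity

theorem nf_le (z : SL F) : nf z ≤ Fintype.card F + 1 := by
  classical
  rw [← card_PL]
  unfold nf
  exact_mod_cast card_le_univ _

theorem sum_nf : ∑ z : SL F, nf z = Fintype.card F * Fintype.card (SL F) := by
  rw [sum_congr rfl fun z _ => nf_eq z, sum_sub_distrib, fx_sum _ two_le_card_PL, sum_const,
    card_univ, nsmul_eq_mul]
  ring

/-- there are at most `q ^ 2` elements of trace `0` -/
theorem card_unip : (((open Classical in univ.filter fun z : SL F => z.1.trace = 0).card : ℕ) : ℤ) ≤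
    (Fintype.card F : ℤ) ^ 2 := by
  classical
  have h : (univ.filter fun z : SL F => z.1.trace = 0).card ≤ (univ : Finset (F × F)).card := by
    refine card_le_card_of_injOn (fun z => (z.1 0 1, z.1 1 0)) (fun _ _ => mem_univ _) ?_
    intro x hx y hy h
    simp only [coe_filter, mem_univ, true_and, Set.mem_setOf_eq] at hx hy
    simp only [Prod.mk.injEq] at h
    obtain ⟨h01, h10⟩ := h
    rw [tr_eq, CharTwo.add_eq_zero] at hx hy
    have hx1 := det_eq x
    have hy1 := det_eq y
    rw [← hx] at hx1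
    rw [← hy, ← h01, ← h10] at hy1
    have h2 : (2 : F) = 0 := CharTwo.two_eq_zero
    have h3 := hx1.trans hy1.symm
    have h4 := add_right_cancel h3
    have h00 : x.1 0 0 = y.1 0 0 := by
      have : (x.1 0 0 + y.1 0 0) * (x.1 0 0 + y.1 0 0) = 0 := by
        linear_combination h4 + (x.1 0 0 * y.1 0 0 + y.1 0 0 * y.1 0 0) * h2
      exact CharTwo.add_eq_zero.1 (mul_self_eq_zero.1 this)
    ext i j
    fin_cases i <;> fin_cases j
    · exact h00
    · exact h01
    · exact h10
    · exact hx.symm.trans (h00.trans hy)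
  rw [card_univ, Fintype.card_prod] at h
  have h' : (((univ.filter fun z : SL F => z.1.trace = 0).card : ℕ) : ℤ) ≤
      ((Fintype.card F * Fintype.card F : ℕ) : ℤ) := by exact_mod_cast h
  push_cast at h'
  rw [pow_two]
  exact h'

theorem abs_dv_le (z : SL F) : |dv z| ≤ (Fintype.card F : ℤ) ^ 4 := by
  classical
  have hq := two_le_q (F := F)
  have h1 : (Fintype.card F : ℤ) ^ 4 = (Fintype.card F : ℤ) ^ 2 * (Fintype.card F : ℤ) ^ 2 := by ring
  have h2 : (4 : ℤ) ≤ (Fintype.card F : ℤ) ^ 2 := by nlinarith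
  by_cases hz : z = 1
  · subst hz
    rw [dv_one, abs_of_nonneg (by nlinarith)]
    nlinarith
  by_cases ht : z.1.trace = 0
  · rw [dv_unip hz ht, abs_of_nonpos (by nlinarith)]
    nlinarith
  · rw [dv_ss ht, abs_of_nonneg (nf_nonneg z)]
    have := nf_le z
    nlinarith

theorem sum_abs_dv : ∑ z : SL F, |dv z| ≤ 4 * (Fintype.card F : ℤ) ^ 4 := by
  classical
  have hq := two_le_q (F := F)
  have h2 : (4 : ℤ) ≤ (Fintype.card F : ℤ) ^ 2 := by nlinarith
  have h1 : ∀ z : SL F, |dv z| ≤ nf z + ((if z = 1 then (Fintype.card F : ℤ) ^ 4 else 0) +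
      (if z.1.trace = 0 then 2 * (Fintype.card F : ℤ) ^ 2 else 0)) := by
    intro z
    by_cases hz : z = 1
    · have h3 := abs_dv_le z
      have h4 := nf_nonneg z
      rw [if_pos hz]
      have h5 : (0 : ℤ) ≤ if z.1.trace = 0 then 2 * (Fintype.card F : ℤ) ^ 2 else 0 := by
        split_ifs <;> positivity
      linarith
    · rw [if_neg hz]
      by_cases ht : z.1.trace = 0
      · rw [dv_unip hz ht, abs_of_nonpos (by nlinarith), if_pos ht]
        have h4 := nf_nonneg z
        linarith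
      · rw [dv_ss ht, abs_of_nonneg (nf_nonneg z), if_neg ht]
        linarith
  refine (sum_le_sum fun z _ => h1 z).trans ?_
  rw [sum_add_distrib, sum_add_distrib, sum_nf, card_SL, sum_ite_eq' univ (1 : SL F),
    if_pos (mem_univ _), ← sum_filter, sum_const, nsmul_eq_mul]
  have h3 := card_unip (F := F)
  have h4 : (((univ.filter fun z : SL F => z.1.trace = 0).card : ℕ) : ℤ) *
      (2 * (Fintype.card F : ℤ) ^ 2) ≤ (Fintype.card F : ℤ) ^ 2 * (2 * (Fintype.card F : ℤ) ^ 2) := by
    refine mul_le_mul_of_nonneg_right ?_ (by positivity)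
    convert h3
  nlinarith

theorem sum_dv : ∑ z : SL F, dv z = 0 := by
  have h := sum_NN (G := SL F) 1
  have h1 : ∀ z : SL F, NN 1 z = cm z := by
    classical
    intro z
    rw [NN_succ]
    unfold cm
    rw [card_filter]
    push_cast
    refine sum_congr rfl fun p _ => ?_
    rw [NN_zero]
    congr 1
    rw [inv_mul_eq_one]
  rw [sum_congr rfl fun z _ => h1 z] at h
  unfold dv
  rw [sum_sub_distrib, h, sum_const, card_univ, nsmul_eq_mul]
  ring

theorem sum_shift (f : SL F → ℤ) (z : SL F) : ∑ u : SL F, f (u⁻¹ * z) = ∑ u : SL F, f u :=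
  Fintype.sum_equiv ((Equiv.inv (SL F)).trans (Equiv.mulRight z)) _ _ fun _ => rfl

theorem NN_size (g : ℕ) (z : SL F) :
    |NN (g + 1) z - (Fintype.card (SL F) : ℤ) ^ (2 * g + 1)| ≤
      4 ^ g * (Fintype.card F : ℤ) ^ (4 * g + 4) := by
  classical
  induction g generalizing z with
  | zero =>
    rw [NN_succ, sum_cm fun u => NN 0 (u⁻¹ * z)]
    have h1 : ∑ u : SL F, cm u * NN 0 (u⁻¹ * z) = cm z := by
      have : ∀ u : SL F, cm u * NN 0 (u⁻¹ * z) = if u = z then cm u else 0 := by
        intro u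
        rw [NN_zero]
        by_cases hu : u = z
        · rw [if_pos hu, if_pos (inv_mul_eq_one.2 hu), mul_one]
        · rw [if_neg hu, if_neg fun h => hu (inv_mul_eq_one.1 h), mul_zero]
      rw [sum_congr rfl fun u _ => this u, sum_ite_eq' univ z, if_pos (mem_univ _)]
    rw [h1]
    have h2 := abs_dv_le z
    unfold dv at h2
    simpa using h2
  | succ g ih =>
    rw [NN_succ, sum_cm fun u => NN (g + 1) (u⁻¹ * z)]
    have h1 : ∀ u : SL F, cm u * NN (g + 1) (u⁻¹ * z) =
        dv u * (NN (g + 1) (u⁻¹ * z) - (Fintype.card (SL F) : ℤ) ^ (2 * g + 1)) +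
        (Fintype.card (SL F) : ℤ) * NN (g + 1) (u⁻¹ * z) +
        (Fintype.card (SL F) : ℤ) ^ (2 * g + 1) * dv u := by
      intro u
      unfold dv
      ring
    rw [sum_congr rfl fun u _ => h1 u, sum_add_distrib, sum_add_distrib, ← mul_sum, ← mul_sum,
      sum_dv, sum_shift fun u => NN (g + 1) u, sum_NN, mul_zero, add_zero]
    have h2 : ∀ A : ℤ, A + (Fintype.card (SL F) : ℤ) * (Fintype.card (SL F) : ℤ) ^ (2 * (g + 1)) -
        (Fintype.card (SL F) : ℤ) ^ (2 * (g + 1) + 1) = A := fun A => by ring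
    rw [h2]
    refine (abs_sum_le_sum_abs _ _).trans ?_
    have h3 : ∀ u : SL F,
        |dv u * (NN (g + 1) (u⁻¹ * z) - (Fintype.card (SL F) : ℤ) ^ (2 * g + 1))| ≤
        |dv u| * (4 ^ g * (Fintype.card F : ℤ) ^ (4 * g + 4)) := by
      intro u
      rw [abs_mul]
      exact mul_le_mul_of_nonneg_left (ih _) (abs_nonneg _)
    refine (sum_le_sum fun u _ => h3 u).trans ?_
    rw [← sum_mul]
    refine (mul_le_mul_of_nonneg_right sum_abs_dv (by positivity)).trans (le_of_eq ?_)
    ring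

/-- for `g ≥ 2` the number of the `g`-tuples is at most `q ^ (6 g - 3) + 4 ^ (g - 1) q ^ (6 g - 4)` -/
theorem NN_le {g : ℕ} (hg : 2 ≤ g) (z : SL F) : NN g z ≤
    (Fintype.card F : ℤ) ^ (6 * g - 3) + 4 ^ (g - 1) * (Fintype.card F : ℤ) ^ (6 * g - 4) := by
  obtain ⟨g, rfl⟩ : ∃ m, g = m + 2 := ⟨g - 2, by omega⟩
  have hq := two_le_q (F := F)
  have h := (abs_le.1 (NN_size (g + 1) z)).2
  have h1 : (Fintype.card (SL F) : ℤ) ^ (2 * (g + 1) + 1) ≤ (Fintype.card F : ℤ) ^ (6 * (g + 2) - 3) := by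
    have e : 6 * (g + 2) - 3 = 3 * (2 * (g + 1) + 1) := by omega
    rw [e, pow_mul]
    refine pow_le_pow_left₀ (by positivity) ?_ _
    rw [card_SL]
    nlinarith
  have h2 : (Fintype.card F : ℤ) ^ (4 * (g + 1) + 4) ≤ (Fintype.card F : ℤ) ^ (6 * (g + 2) - 4) :=
    pow_le_pow_right₀ (by linarith) (by omega)
  have h3 : (4 : ℤ) ^ (g + 1) * (Fintype.card F : ℤ) ^ (4 * (g + 1) + 4) ≤
      4 ^ (g + 1) * (Fintype.card F : ℤ) ^ (6 * (g + 2) - 4) :=
    mul_le_mul_of_nonneg_left h2 (by positivity)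
  have e2 : g + 2 - 1 = g + 1 := rfl
  rw [e2]
  linarith

end Pool.Agent.SurfCnt
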